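import Mathlib

set_option autoImplicit false
set_option linter.unusedSimpArgs false
set_option linter.style.haveILetI false

open Filter Topology Matrix

namespace Pool.Agent.Results.MP_5e7574_co.PrimePlanesDiverge

/-- A finite bipartite graph with labelled vertex classes `V₁`, `V₂`; its edge set is a relation
between `V₁` and `V₂`. -/
structure BipGraph where
  /-- first vertex class -/
  V₁ : Type
  /-- second vertex class -/
  V₂ : Type
  fin₁ : Finite V₁
  fin₂ : Finite V₂
  /-- the edges -/
  E : V₁ → V₂ → Prop

/-- The number of label-preserving homomorphisms `H → G` that are injective on vertices. -/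
noncomputable def inj (H G : BipGraph) : ℕ :=
  Nat.card {f : (H.V₁ → G.V₁) × (H.V₂ → G.V₂) //
    Function.Injective f.1 ∧ Function.Injective f.2 ∧ ∀ x y, H.E x y → G.E (f.1 x) (f.2 y)}

/-- The point-line incidence graph of the projective plane `PG(2,K)` over a finite field `K`:
points are the one-dimensional and lines the two-dimensional subspaces of `K³`. -/
def planeGraph (K : Type) [Field K] [Finite K] : BipGraph where
  V₁ := {P : Submodule K (Fin 3 → K) // Module.finrank K P = 1}
  V₂ := {L : Submodule K (Fin 3 → K) // Module.finrank K L = 2}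
  fin₁ := by
    haveI : Finite (Submodule K (Fin 3 → K)) :=
      Finite.of_injective (fun W => (W : Set (Fin 3 → K))) SetLike.coe_injective
    infer_instance
  fin₂ := by
    haveI : Finite (Submodule K (Fin 3 → K)) :=
      Finite.of_injective (fun W => (W : Set (Fin 3 → K))) SetLike.coe_injective
    infer_instance
  E := fun P L => P.1 ≤ L.1

/-- `log_b m` with the convention `log_b 0 = -∞`. -/
noncomputable def elog (b m : ℕ) : EReal := if m = 0 then ⊥ else ((Real.logb b m : ℝ) : EReal)

/-- `inj(H, G_p)`, where `G_p` is the incidence graph of `PG(2,p)`; the value `0` is used when `p`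
is not a prime. -/
noncomputable def injPlane (H : BipGraph) (p : ℕ) : ℕ := by
  classical
  exact if h : p.Prime then
    haveI : Fact p.Prime := ⟨h⟩
    inj H (planeGraph (ZMod p)) else 0

/-- Incidence in the affine plane of order three: nine points `(x, y)`, and the twelve lines
`y = m x + b` and `x = c`. -/
def inc3 (P : ZMod 3 × ZMod 3) : (ZMod 3 × ZMod 3) ⊕ ZMod 3 → Prop
  | Sum.inl (m, b) => P.2 = m * P.1 + b
  | Sum.inr c => P.1 = c

/-- The incidence graph of the affine plane of order three. -/
def affinePlane3 : BipGraph where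
  V₁ := ZMod 3 × ZMod 3
  V₂ := (ZMod 3 × ZMod 3) ⊕ ZMod 3
  fin₁ := by infer_instance
  fin₂ := by infer_instance
  E := inc3

/-! ### Embeddings force a root of `X² - X + 1` -/

section Nonexistence

variable {K : Type} [Field K]

lemma mem_plane_det {L : Submodule K (Fin 3 → K)} (hL : Module.finrank K L = 2)
    {u v w : Fin 3 → K} (hu : u ∈ L) (hv : v ∈ L) (hw : w ∈ L) :
    (Matrix.of ![u, v, w]).det = 0 := by
  by_contra hdet
  have hli : LinearIndependent K (Matrix.of ![u, v, w]).row :=
    Matrix.linearIndependent_rows_of_det_ne_zero hdet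
  have hle : Submodule.span K (Set.range (Matrix.of ![u, v, w]).row) ≤ L := by
    rw [Submodule.span_le]
    rintro _ ⟨i, rfl⟩
    fin_cases i
    · exact hu
    · exact hv
    · exact hw
  have h1 := finrank_span_eq_card hli
  have h2 := Submodule.finrank_mono hle
  rw [h1, hL] at h2
  simp at h2

lemma span_pair_eq {L : Submodule K (Fin 3 → K)} (hL : Module.finrank K L = 2)
    {u v : Fin 3 → K} (hu : u ∈ L) (hv : v ∈ L) (hli : LinearIndependent K ![u, v]) :
    Submodule.span K (Set.range ![u, v]) = L := by
  apply Submodule.eq_of_le_of_finrank_eq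
  · rw [Submodule.span_le]
    rintro _ ⟨i, rfl⟩
    fin_cases i
    · exact hu
    · exact hv
  · rw [hL]
    have h := finrank_span_eq_card hli
    simpa using h

lemma det_ne_zero {L₁ L₂ : Submodule K (Fin 3 → K)} (h1 : Module.finrank K L₁ = 2)
    (h2 : Module.finrank K L₂ = 2) (hne : L₁ ≠ L₂) {u v w : Fin 3 → K}
    (hu : u ∈ L₁) (hv : v ∈ L₁) (hv2 : v ∈ L₂) (hw : w ∈ L₂)
    (huv : LinearIndependent K ![u, v]) (hvw : LinearIndependent K ![v, w]) :
    (Matrix.of ![u, v, w]).det ≠ 0 := by
  intro hdet
  have hnot : ¬ LinearIndependent K ![u, v, w] := by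
    intro hli
    have h3 : IsUnit (Matrix.of ![u, v, w]) := by
      rw [← Matrix.linearIndependent_rows_iff_isUnit]
      exact hli
    rw [Matrix.isUnit_iff_isUnit_det, hdet] at h3
    exact not_isUnit_zero h3
  have hsn : (![u, v, w] : Fin 3 → (Fin 3 → K)) = Fin.snoc (α := fun _ => Fin 3 → K) ![u, v] w := by
    funext i
    fin_cases i <;> rfl
  rw [hsn, linearIndependent_finSnoc] at hnot
  have hmem : w ∈ Submodule.span K (Set.range ![u, v]) := by
    by_contra hcon
    exact hnot ⟨huv, hcon⟩
  rw [span_pair_eq h1 hu hv huv] at hmem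
  exact hne ((span_pair_eq h1 hv hmem hvw).symm.trans (span_pair_eq h2 hv2 hw hvw))

/-- The algebra: the collinearities of the Möbius–Kantor configuration. -/
lemma algebra_core {α β γ x1 x2 y1 y3 z1 z2 z3 w1 w2 w3 : K} (hα : α ≠ 0) (hβ : β ≠ 0)
    (hγ : γ ≠ 0) (hx : x1 ≠ 0) (hy : y1 ≠ 0) (hz : z1 ≠ 0) (hw : w1 ≠ 0)
    (e1 : α * z3 = γ * z1) (e2 : α * w2 = β * w1) (e3 : z1 * x2 = z2 * x1)
    (e4 : y1 * w3 = y3 * w1) (e5 : z2 * w3 = z3 * w2)
    (e6 : y3 * α * x2 = y1 * γ * x2 + y3 * β * x1) : ∃ a : K, a ^ 2 - a + 1 = 0 := by
  have hz3 : z3 = γ * z1 / α := by field_simp; linear_combination e1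
  have hw2 : w2 = β * w1 / α := by field_simp; linear_combination e2
  have hz2 : z2 = z1 * x2 / x1 := by field_simp; linear_combination -e3
  have hw3 : w3 = y3 * w1 / y1 := by field_simp; linear_combination e4
  rw [hz2, hw3, hz3, hw2] at e5
  have e5' : x2 * y3 * α ^ 2 = γ * β * x1 * y1 := by
    field_simp at e5
    linear_combination e5
  refine ⟨x2 * α / (x1 * β), ?_⟩
  have hy3 : y3 ≠ 0 := by
    rintro rfl
    have : γ * β * x1 * y1 = 0 := by rw [← e5']; ring
    simp [hγ, hβ, hx, hy] at this
  field_simp
  have hne : y3 * α ≠ 0 := mul_ne_zero hy3 hα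
  apply mul_left_cancel₀ hne
  linear_combination (α * x2) * e5' - (x1 * β * α) * e6

/-- An injective homomorphism from the affine plane of order three into `PG(2,K)` forces a root of
`X² - X + 1` in `K`. -/
lemma root_of_embedding
    (f1 : ZMod 3 × ZMod 3 → {P : Submodule K (Fin 3 → K) // Module.finrank K P = 1})
    (f2 : (ZMod 3 × ZMod 3) ⊕ ZMod 3 → {L : Submodule K (Fin 3 → K) // Module.finrank K L = 2})
    (h1 : Function.Injective f1) (h2 : Function.Injective f2)
    (h : ∀ x y, inc3 x y → (f1 x).1 ≤ (f2 y).1) : ∃ a : K, a ^ 2 - a + 1 = 0 := by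
  -- vectors spanning the points
  have hex : ∀ P, ∃ v : Fin 3 → K, v ≠ 0 ∧ (f1 P).1 = Submodule.span K {v} := by
    intro P
    obtain ⟨v, hv, hspan⟩ := finrank_eq_one_iff'.1 (f1 P).2
    refine ⟨v.1, ?_, ?_⟩
    · intro h0
      exact hv (Subtype.ext h0)
    · apply le_antisymm
      · intro w hw
        obtain ⟨c, hc⟩ := hspan ⟨w, hw⟩
        rw [Submodule.mem_span_singleton]
        exact ⟨c, congrArg Subtype.val hc⟩
      · rw [Submodule.span_singleton_le_iff_mem]
        exact v.2
  choose v hv0 hv using hex
  have hli : ∀ P Q, P ≠ Q → LinearIndependent K ![v P, v Q] := by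
    intro P Q hPQ
    rw [LinearIndependent.pair_iff' (hv0 P)]
    intro a ha
    apply hPQ
    apply h1
    apply Subtype.ext
    have hle : (f1 Q).1 ≤ (f1 P).1 := by
      rw [hv Q, hv P, Submodule.span_singleton_le_iff_mem, ← ha]
      exact Submodule.smul_mem _ _ (Submodule.mem_span_singleton_self _)
    exact (Submodule.eq_of_le_of_finrank_eq hle ((f1 Q).2.trans (f1 P).2.symm)).symm
  have hmem : ∀ P ℓ, inc3 P ℓ → v P ∈ (f2 ℓ).1 := by
    intro P ℓ hPℓ
    apply h P ℓ hPℓ
    rw [hv P]
    exact Submodule.mem_span_singleton_self _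
  -- collinear and non-collinear triples
  have hcol : ∀ P Q R ℓ, inc3 P ℓ → inc3 Q ℓ → inc3 R ℓ →
      (Matrix.of ![v P, v Q, v R]).det = 0 := fun P Q R ℓ hP hQ hR =>
    mem_plane_det (f2 ℓ).2 (hmem P ℓ hP) (hmem Q ℓ hQ) (hmem R ℓ hR)
  have hnon : ∀ P Q R ℓ ℓ', inc3 P ℓ → inc3 Q ℓ → inc3 Q ℓ' →
      inc3 R ℓ' → ℓ ≠ ℓ' → P ≠ Q → Q ≠ R →
      (Matrix.of ![v P, v Q, v R]).det ≠ 0 := fun P Q R ℓ ℓ' a b c d hne hPQ hQR =>
    det_ne_zero (f2 ℓ).2 (f2 ℓ').2 (fun hh => hne (h2 (Subtype.ext hh)))
      (hmem P ℓ a) (hmem Q ℓ b) (hmem Q ℓ' c) (hmem R ℓ' d) (hli P Q hPQ) (hli Q R hQR)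
  -- change of coordinates
  set M : Matrix (Fin 3) (Fin 3) K := Matrix.of ![v (0, 0), v (1, 0), v (0, 1)] with hM
  have hMdet : M.det ≠ 0 := hnon (0, 0) (1, 0) (0, 1) (Sum.inl (0, 0)) (Sum.inl (2, 1))
    (by show _ = _; decide) (by show _ = _; decide) (by show _ = _; decide)
    (by show _ = _; decide) (by decide) (by decide) (by decide)
  have hMinv : M⁻¹.det ≠ 0 := by
    rw [Matrix.det_nonsing_inv, Ring.inverse_eq_inv']
    exact inv_ne_zero hMdet
  have hMM : M * M⁻¹ = 1 := Matrix.mul_nonsing_inv M (isUnit_iff_ne_zero.2 hMdet)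
  set u : ZMod 3 × ZMod 3 → Fin 3 → K := fun P => v P ᵥ* M⁻¹ with hu
  have hD : ∀ P Q R, (Matrix.of ![u P, u Q, u R]).det =
      (Matrix.of ![v P, v Q, v R]).det * M⁻¹.det := by
    intro P Q R
    rw [← Matrix.det_mul]
    congr 1
    ext i j
    fin_cases i <;> rfl
  have hc : ∀ P Q R ℓ, inc3 P ℓ → inc3 Q ℓ → inc3 R ℓ →
      (Matrix.of ![u P, u Q, u R]).det = 0 := by
    intro P Q R ℓ a b c
    rw [hD, hcol P Q R ℓ a b c, zero_mul]
  have hn : ∀ P Q R ℓ ℓ', inc3 P ℓ → inc3 Q ℓ → inc3 Q ℓ' →
      inc3 R ℓ' → ℓ ≠ ℓ' → P ≠ Q → Q ≠ R →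
      (Matrix.of ![u P, u Q, u R]).det ≠ 0 := by
    intro P Q R ℓ ℓ' a b c d e f g
    rw [hD]
    exact mul_ne_zero (hnon P Q R ℓ ℓ' a b c d e f g) hMinv
  have hu00 : u (0, 0) = ![1, 0, 0] := by
    have h3 := congrFun hMM 0
    funext j
    have h4 := congrFun h3 j
    have h5 : u (0, 0) j = (M * M⁻¹) 0 j := rfl
    rw [h5, h4]
    fin_cases j <;> rfl
  have hu10 : u (1, 0) = ![0, 1, 0] := by
    have h3 := congrFun hMM 1
    funext j
    have h4 := congrFun h3 j
    have h5 : u (1, 0) j = (M * M⁻¹) 1 j := rfl
    rw [h5, h4]
    fin_cases j <;> rfl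
  have hu01 : u (0, 1) = ![0, 0, 1] := by
    have h3 := congrFun hMM 2
    funext j
    have h4 := congrFun h3 j
    have h5 : u (0, 1) j = (M * M⁻¹) 2 j := rfl
    rw [h5, h4]
    fin_cases j <;> rfl
  -- the collinearities
  have c1 := hc (0, 0) (1, 0) (2, 0) (Sum.inl (0, 0)) (by show _ = _; decide)
    (by show _ = _; decide) (by show _ = _; decide)
  have c2 := hc (0, 0) (0, 1) (0, 2) (Sum.inr 0) (by show _ = _; decide)
    (by show _ = _; decide) (by show _ = _; decide)
  have c3 := hc (1, 0) (1, 1) (1, 2) (Sum.inr 1) (by show _ = _; decide)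
    (by show _ = _; decide) (by show _ = _; decide)
  have c4 := hc (0, 1) (1, 1) (2, 1) (Sum.inl (0, 1)) (by show _ = _; decide)
    (by show _ = _; decide) (by show _ = _; decide)
  have c5 := hc (0, 1) (1, 2) (2, 0) (Sum.inl (1, 1)) (by show _ = _; decide)
    (by show _ = _; decide) (by show _ = _; decide)
  have c6 := hc (1, 0) (0, 2) (2, 1) (Sum.inl (1, 2)) (by show _ = _; decide)
    (by show _ = _; decide) (by show _ = _; decide)
  have c7 := hc (0, 0) (1, 2) (2, 1) (Sum.inl (2, 0)) (by show _ = _; decide)
    (by show _ = _; decide) (by show _ = _; decide)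
  have c8 := hc (0, 2) (1, 1) (2, 0) (Sum.inl (2, 2)) (by show _ = _; decide)
    (by show _ = _; decide) (by show _ = _; decide)
  -- the non-collinearities
  have n1 := hn (1, 1) (1, 0) (0, 1) (Sum.inr 1) (Sum.inl (2, 1)) (by show _ = _; decide)
    (by show _ = _; decide) (by show _ = _; decide) (by show _ = _; decide) (by decide)
    (by decide) (by decide)
  have n2 := hn (0, 0) (1, 1) (0, 1) (Sum.inl (1, 0)) (Sum.inl (0, 1)) (by show _ = _; decide)
    (by show _ = _; decide) (by show _ = _; decide) (by show _ = _; decide) (by decide)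
    (by decide) (by decide)
  have n3 := hn (0, 0) (1, 0) (1, 1) (Sum.inl (0, 0)) (Sum.inr 1) (by show _ = _; decide)
    (by show _ = _; decide) (by show _ = _; decide) (by show _ = _; decide) (by decide)
    (by decide) (by decide)
  have n4 := hn (2, 0) (1, 0) (0, 1) (Sum.inl (0, 0)) (Sum.inl (2, 1)) (by show _ = _; decide)
    (by show _ = _; decide) (by show _ = _; decide) (by show _ = _; decide) (by decide)
    (by decide) (by decide)
  have n5 := hn (0, 2) (1, 0) (0, 1) (Sum.inl (1, 2)) (Sum.inl (2, 1)) (by show _ = _; decide)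
    (by show _ = _; decide) (by show _ = _; decide) (by show _ = _; decide) (by decide)
    (by decide) (by decide)
  have n6 := hn (1, 2) (1, 0) (0, 1) (Sum.inr 1) (Sum.inl (2, 1)) (by show _ = _; decide)
    (by show _ = _; decide) (by show _ = _; decide) (by show _ = _; decide) (by decide)
    (by decide) (by decide)
  have n7 := hn (2, 1) (1, 0) (0, 1) (Sum.inl (1, 2)) (Sum.inl (2, 1)) (by show _ = _; decide)
    (by show _ = _; decide) (by show _ = _; decide) (by show _ = _; decide) (by decide)
    (by decide) (by decide)
  rw [hu00, hu10] at c1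
  rw [hu00, hu01] at c2
  rw [hu10] at c3
  rw [hu01] at c4 c5
  rw [hu10] at c6
  rw [hu00] at c7
  rw [hu10, hu01] at n1 n4 n5 n6 n7
  rw [hu00, hu01] at n2
  rw [hu00, hu10] at n3
  simp [Matrix.det_fin_three] at c1 c2 c3 c4 c5 c6 c7 c8 n1 n2 n3 n4 n5 n6 n7
  refine algebra_core n1 n2 n3 n4 n5 n6 n7 (z2 := u (1, 2) 1) (z3 := u (1, 2) 2)
    (w2 := u (2, 1) 1) (w3 := u (2, 1) 2) (x2 := u (2, 0) 1) (y3 := u (0, 2) 2) ?_ ?_ ?_ ?_ ?_ ?_
  · linear_combination -c3
  · linear_combination c4
  · linear_combination c5
  · linear_combination -c6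
  · linear_combination c7
  · rw [c1, c2] at c8
    linear_combination c8

end Nonexistence

/-! ### Embeddings from a root of `X² - X + 1` -/

section Existence

variable {K : Type} [Field K]

/-- the functional `x ↦ w · x` -/
def functional (w : Fin 3 → K) : (Fin 3 → K) →ₗ[K] K where
  toFun x := w ⬝ᵥ x
  map_add' x y := dotProduct_add w x y
  map_smul' c x := by simp [dotProduct_smul]

lemma functional_apply (w x : Fin 3 → K) : functional w x = w 0 * x 0 + w 1 * x 1 + w 2 * x 2 := by
  simp [functional, dotProduct, Fin.sum_univ_three]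

lemma functional_ne_zero {w : Fin 3 → K} (hw : w ≠ 0) : functional w ≠ 0 := by
  intro h
  apply hw
  funext i
  have h1 := LinearMap.congr_fun h (Pi.single i 1)
  simpa [functional] using h1

lemma finrank_ker {w : Fin 3 → K} (hw : w ≠ 0) :
    Module.finrank K (LinearMap.ker (functional w)) = 2 := by
  have h := Module.Dual.finrank_ker_add_one_of_ne_zero (functional_ne_zero hw)
  rw [Module.finrank_fin_fun] at h
  omega

lemma cross_of_span_eq {v w : Fin 3 → K}
    (h : Submodule.span K {v} = Submodule.span K {w}) (i j : Fin 3) : v i * w j = v j * w i := by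
  have h1 : w ∈ Submodule.span K {v} := by
    rw [h]; exact Submodule.mem_span_singleton_self _
  obtain ⟨c, rfl⟩ := Submodule.mem_span_singleton.1 h1
  simp only [Pi.smul_apply, smul_eq_mul]
  ring

lemma cross_of_ker_eq {v w : Fin 3 → K} 
    (h : LinearMap.ker (functional v) = LinearMap.ker (functional w)) (i j : Fin 3) :
    v i * w j = v j * w i := by
  have h1 : (v j • Pi.single i (1 : K) - v i • Pi.single j (1 : K) : Fin 3 → K) ∈
      LinearMap.ker (functional v) := by
    simp [LinearMap.mem_ker, functional, dotProduct_sub]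
    ring
  rw [h] at h1
  simp [LinearMap.mem_ker, functional, dotProduct_sub] at h1
  linear_combination -h1

/-- coordinates of the nine points -/
def pv (a b : K) (P : ZMod 3 × ZMod 3) : Fin 3 → K :=
  (![![![1, 0, 0], ![0, 1, 0], ![1, a, 0]],
     ![![0, 0, 1], ![1, 1, 1], ![1, 1, b]],
     ![![1, 0, b], ![1, a, 1], ![0, 1, 1]]] : Fin 3 → Fin 3 → Fin 3 → K) P.2 P.1

/-- coordinates of the twelve lines -/
def lv (a b : K) : (ZMod 3 × ZMod 3) ⊕ ZMod 3 → Fin 3 → K
  | Sum.inl (m, c) => (![![![0, 0, 1], ![1, -1, 0], ![-b, -1, 1]],
     ![![0, 1, -1], ![a, -1, 0], ![b, 0, -1]],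
     ![![0, 1, -a], ![1, 0, 0], ![-a, 1, -b]]] : Fin 3 → Fin 3 → Fin 3 → K) m c
  | Sum.inr c => (![![0, 1, 0], ![1, 0, -1], ![-a, 1, -1]] : Fin 3 → Fin 3 → K) c

lemma pv_ne_zero (a b : K) (P : ZMod 3 × ZMod 3) : pv a b P ≠ 0 := by
  obtain ⟨x, y⟩ := P
  intro h
  have h0 := congrFun h 0
  have h1 := congrFun h 1
  have h2 := congrFun h 2
  fin_cases x <;> fin_cases y <;> simp [pv] at h0 h1 h2

lemma lv_ne_zero (a b : K) (ℓ : (ZMod 3 × ZMod 3) ⊕ ZMod 3) : lv a b ℓ ≠ 0 := by
  intro h
  have h0 := congrFun h 0
  have h1 := congrFun h 1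
  have h2 := congrFun h 2
  rcases ℓ with ⟨x, y⟩ | x
  · fin_cases x <;> fin_cases y <;> simp [lv] at h0 h1 h2
  · fin_cases x <;> simp [lv] at h0 h1 h2

lemma pv_inj {a b : K} (ha0 : a ≠ 0) (ha1 : a ≠ 1) (hb0 : b ≠ 0) (hb1 : b ≠ 1)
    {P Q : ZMod 3 × ZMod 3} 
    (h : Submodule.span K {pv a b P} = Submodule.span K {pv a b Q}) : P = Q := by
  have h01 := cross_of_span_eq h 0 1
  have h02 := cross_of_span_eq h 0 2
  have h12 := cross_of_span_eq h 1 2
  clear h
  obtain ⟨x, y⟩ := P
  obtain ⟨x', y'⟩ := Q
  fin_cases x <;> fin_cases y <;> fin_cases x' <;> fin_cases y' <;> first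
    | rfl
    | (exfalso; simp [pv, ha0, ha1, hb0, hb1, ha0.symm, ha1.symm, hb0.symm, hb1.symm] at h01 h02 h12)

lemma lv_inj {a b : K} (ha0 : a ≠ 0) (ha1 : a ≠ 1) (hb0 : b ≠ 0) (hb1 : b ≠ 1)
    (hab : b ≠ -a) {P Q : (ZMod 3 × ZMod 3) ⊕ ZMod 3}
    (h : LinearMap.ker (functional (lv a b P)) = LinearMap.ker (functional (lv a b Q))) :
    P = Q := by
  have h01 := cross_of_ker_eq h 0 1
  have h02 := cross_of_ker_eq h 0 2
  have h12 := cross_of_ker_eq h 1 2
  clear h
  have hab' : a ≠ -b := fun h => hab (by rw [h]; ring)
  have e1 : ¬ (-a = -1) := fun h => ha1 (by linear_combination -h)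
  have e2 : ¬ (-b = -1) := fun h => hb1 (by linear_combination -h)
  rcases P with ⟨x, y⟩ | x <;> rcases Q with ⟨x', y'⟩ | x'
  · fin_cases x <;> fin_cases y <;> fin_cases x' <;> fin_cases y' <;> first
      | rfl
      | (exfalso; simp [lv, ha0, ha1, hb0, hb1, ha0.symm, ha1.symm, hb0.symm, hb1.symm, hab,
          hab', hab.symm, hab'.symm, e1, e2] at h01 h02 h12)
  · fin_cases x <;> fin_cases y <;> fin_cases x' <;> first
      | rfl
      | (exfalso; simp [lv, ha0, ha1, hb0, hb1, ha0.symm, ha1.symm, hb0.symm, hb1.symm, hab,
          hab', hab.symm, hab'.symm, e1, e2] at h01 h02 h12)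
  · fin_cases x <;> fin_cases x' <;> fin_cases y' <;> first
      | rfl
      | (exfalso; simp [lv, ha0, ha1, hb0, hb1, ha0.symm, ha1.symm, hb0.symm, hb1.symm, hab,
          hab', hab.symm, hab'.symm, e1, e2] at h01 h02 h12)
  · fin_cases x <;> fin_cases x' <;> first
      | rfl
      | (exfalso; simp [lv, ha0, ha1, hb0, hb1, ha0.symm, ha1.symm, hb0.symm, hb1.symm, hab,
          hab', hab.symm, hab'.symm, e1, e2] at h01 h02 h12)

/-- the list of all incidences -/
def incList : Finset ((ZMod 3 × ZMod 3) × ((ZMod 3 × ZMod 3) ⊕ ZMod 3)) :=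
  {((0, 0), Sum.inl (0, 0)),
    ((1, 0), Sum.inl (0, 0)),
    ((2, 0), Sum.inl (0, 0)),
    ((0, 1), Sum.inl (0, 1)),
    ((1, 1), Sum.inl (0, 1)),
    ((2, 1), Sum.inl (0, 1)),
    ((0, 2), Sum.inl (0, 2)),
    ((1, 2), Sum.inl (0, 2)),
    ((2, 2), Sum.inl (0, 2)),
    ((0, 0), Sum.inl (1, 0)),
    ((1, 1), Sum.inl (1, 0)),
    ((2, 2), Sum.inl (1, 0)),
    ((2, 0), Sum.inl (1, 1)),
    ((0, 1), Sum.inl (1, 1)),
    ((1, 2), Sum.inl (1, 1)),
    ((1, 0), Sum.inl (1, 2)),
    ((2, 1), Sum.inl (1, 2)),
    ((0, 2), Sum.inl (1, 2)),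
    ((0, 0), Sum.inl (2, 0)),
    ((2, 1), Sum.inl (2, 0)),
    ((1, 2), Sum.inl (2, 0)),
    ((1, 0), Sum.inl (2, 1)),
    ((0, 1), Sum.inl (2, 1)),
    ((2, 2), Sum.inl (2, 1)),
    ((2, 0), Sum.inl (2, 2)),
    ((1, 1), Sum.inl (2, 2)),
    ((0, 2), Sum.inl (2, 2)),
    ((0, 0), Sum.inr 0),
    ((0, 1), Sum.inr 0),
    ((0, 2), Sum.inr 0),
    ((1, 0), Sum.inr 1),
    ((1, 1), Sum.inr 1),
    ((1, 2), Sum.inr 1),
    ((2, 0), Sum.inr 2),
    ((2, 1), Sum.inr 2),
    ((2, 2), Sum.inr 2)}

lemma inc3_cases_inl : ∀ x y m c : ZMod 3, y = m * x + c →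
    ((x, y), (Sum.inl (m, c) : (ZMod 3 × ZMod 3) ⊕ ZMod 3)) ∈ incList := by decide

lemma inc3_cases_inr : ∀ x y c : ZMod 3, x = c →
    ((x, y), (Sum.inr c : (ZMod 3 × ZMod 3) ⊕ ZMod 3)) ∈ incList := by decide

lemma inc3_cases (P : ZMod 3 × ZMod 3) (ℓ : (ZMod 3 × ZMod 3) ⊕ ZMod 3) (h : inc3 P ℓ) :
    (P, ℓ) ∈ incList := by
  obtain ⟨x, y⟩ := P
  rcases ℓ with ⟨m, c⟩ | c
  · exact inc3_cases_inl x y m c h
  · exact inc3_cases_inr x y c h

lemma incidence {a b : K} (hs : a + b = 1) (hp : a * b = 1) {P : ZMod 3 × ZMod 3}
    {ℓ : (ZMod 3 × ZMod 3) ⊕ ZMod 3} (h : inc3 P ℓ) :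
    Submodule.span K {pv a b P} ≤ LinearMap.ker (functional (lv a b ℓ)) := by
  rw [Submodule.span_singleton_le_iff_mem, LinearMap.mem_ker, functional_apply]
  have h2 := inc3_cases P ℓ h
  simp only [incList, Finset.mem_insert, Finset.mem_singleton, Prod.mk.injEq] at h2
  clear h
  rcases h2 with ⟨rfl, rfl⟩ | ⟨rfl, rfl⟩ | ⟨rfl, rfl⟩ | ⟨rfl, rfl⟩ | ⟨rfl, rfl⟩ | ⟨rfl, rfl⟩ | ⟨rfl, rfl⟩ | ⟨rfl, rfl⟩ | ⟨rfl, rfl⟩ | ⟨rfl, rfl⟩ | ⟨rfl, rfl⟩ | ⟨rfl, rfl⟩ | ⟨rfl, rfl⟩ | ⟨rfl, rfl⟩ | ⟨rfl, rfl⟩ | ⟨rfl, rfl⟩ | ⟨rfl, rfl⟩ | ⟨rfl, rfl⟩ | ⟨rfl, rfl⟩ | ⟨rfl, rfl⟩ | ⟨rfl, rfl⟩ | ⟨rfl, rfl⟩ | ⟨rfl, rfl⟩ | ⟨rfl, rfl⟩ | ⟨rfl, rfl⟩ | ⟨rfl, rfl⟩ | ⟨rfl, rfl⟩ | ⟨rfl, rfl⟩ | ⟨rfl, rfl⟩ | ⟨rfl, rfl⟩ | ⟨rfl, rfl⟩ | ⟨rfl, rfl⟩ | ⟨rfl, rfl⟩ | ⟨rfl, rfl⟩ | ⟨rfl, rfl⟩ | ⟨rfl, rfl⟩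
  · show (0 : K) * 1 + (0 : K) * 0 + (1 : K) * 0 = 0
    first
      | ring1
      | linear_combination hs
      | linear_combination -hs
      | linear_combination hp
      | linear_combination -hp
      | linear_combination hs - hp
      | linear_combination hp - hs
      | linear_combination -b * hs + hp - hs
      | linear_combination -b * hs + hp
      | linear_combination b * hs - hp - hs
  · show (0 : K) * 0 + (0 : K) * 1 + (1 : K) * 0 = 0
    first
      | ring1
      | linear_combination hs
      | linear_combination -hs
      | linear_combination hp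
      | linear_combination -hp
      | linear_combination hs - hp
      | linear_combination hp - hs
      | linear_combination -b * hs + hp - hs
      | linear_combination -b * hs + hp
      | linear_combination b * hs - hp - hs
  · show (0 : K) * 1 + (0 : K) * a + (1 : K) * 0 = 0
    first
      | ring1
      | linear_combination hs
      | linear_combination -hs
      | linear_combination hp
      | linear_combination -hp
      | linear_combination hs - hp
      | linear_combination hp - hs
      | linear_combination -b * hs + hp - hs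
      | linear_combination -b * hs + hp
      | linear_combination b * hs - hp - hs
  · show (1 : K) * 0 + (-1 : K) * 0 + (0 : K) * 1 = 0
    first
      | ring1
      | linear_combination hs
      | linear_combination -hs
      | linear_combination hp
      | linear_combination -hp
      | linear_combination hs - hp
      | linear_combination hp - hs
      | linear_combination -b * hs + hp - hs
      | linear_combination -b * hs + hp
      | linear_combination b * hs - hp - hs
  · show (1 : K) * 1 + (-1 : K) * 1 + (0 : K) * 1 = 0
    first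
      | ring1
      | linear_combination hs
      | linear_combination -hs
      | linear_combination hp
      | linear_combination -hp
      | linear_combination hs - hp
      | linear_combination hp - hs
      | linear_combination -b * hs + hp - hs
      | linear_combination -b * hs + hp
      | linear_combination b * hs - hp - hs
  · show (1 : K) * 1 + (-1 : K) * 1 + (0 : K) * b = 0
    first
      | ring1
      | linear_combination hs
      | linear_combination -hs
      | linear_combination hp
      | linear_combination -hp
      | linear_combination hs - hp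
      | linear_combination hp - hs
      | linear_combination -b * hs + hp - hs
      | linear_combination -b * hs + hp
      | linear_combination b * hs - hp - hs
  · show (-b : K) * 1 + (-1 : K) * 0 + (1 : K) * b = 0
    first
      | ring1
      | linear_combination hs
      | linear_combination -hs
      | linear_combination hp
      | linear_combination -hp
      | linear_combination hs - hp
      | linear_combination hp - hs
      | linear_combination -b * hs + hp - hs
      | linear_combination -b * hs + hp
      | linear_combination b * hs - hp - hs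
  · show (-b : K) * 1 + (-1 : K) * a + (1 : K) * 1 = 0
    first
      | ring1
      | linear_combination hs
      | linear_combination -hs
      | linear_combination hp
      | linear_combination -hp
      | linear_combination hs - hp
      | linear_combination hp - hs
      | linear_combination -b * hs + hp - hs
      | linear_combination -b * hs + hp
      | linear_combination b * hs - hp - hs
  · show (-b : K) * 0 + (-1 : K) * 1 + (1 : K) * 1 = 0
    first
      | ring1
      | linear_combination hs
      | linear_combination -hs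
      | linear_combination hp
      | linear_combination -hp
      | linear_combination hs - hp
      | linear_combination hp - hs
      | linear_combination -b * hs + hp - hs
      | linear_combination -b * hs + hp
      | linear_combination b * hs - hp - hs
  · show (0 : K) * 1 + (1 : K) * 0 + (-1 : K) * 0 = 0
    first
      | ring1
      | linear_combination hs
      | linear_combination -hs
      | linear_combination hp
      | linear_combination -hp
      | linear_combination hs - hp
      | linear_combination hp - hs
      | linear_combination -b * hs + hp - hs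
      | linear_combination -b * hs + hp
      | linear_combination b * hs - hp - hs
  · show (0 : K) * 1 + (1 : K) * 1 + (-1 : K) * 1 = 0
    first
      | ring1
      | linear_combination hs
      | linear_combination -hs
      | linear_combination hp
      | linear_combination -hp
      | linear_combination hs - hp
      | linear_combination hp - hs
      | linear_combination -b * hs + hp - hs
      | linear_combination -b * hs + hp
      | linear_combination b * hs - hp - hs
  · show (0 : K) * 0 + (1 : K) * 1 + (-1 : K) * 1 = 0
    first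
      | ring1
      | linear_combination hs
      | linear_combination -hs
      | linear_combination hp
      | linear_combination -hp
      | linear_combination hs - hp
      | linear_combination hp - hs
      | linear_combination -b * hs + hp - hs
      | linear_combination -b * hs + hp
      | linear_combination b * hs - hp - hs
  · show (a : K) * 1 + (-1 : K) * a + (0 : K) * 0 = 0
    first
      | ring1
      | linear_combination hs
      | linear_combination -hs
      | linear_combination hp
      | linear_combination -hp
      | linear_combination hs - hp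
      | linear_combination hp - hs
      | linear_combination -b * hs + hp - hs
      | linear_combination -b * hs + hp
      | linear_combination b * hs - hp - hs
  · show (a : K) * 0 + (-1 : K) * 0 + (0 : K) * 1 = 0
    first
      | ring1
      | linear_combination hs
      | linear_combination -hs
      | linear_combination hp
      | linear_combination -hp
      | linear_combination hs - hp
      | linear_combination hp - hs
      | linear_combination -b * hs + hp - hs
      | linear_combination -b * hs + hp
      | linear_combination b * hs - hp - hs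
  · show (a : K) * 1 + (-1 : K) * a + (0 : K) * 1 = 0
    first
      | ring1
      | linear_combination hs
      | linear_combination -hs
      | linear_combination hp
      | linear_combination -hp
      | linear_combination hs - hp
      | linear_combination hp - hs
      | linear_combination -b * hs + hp - hs
      | linear_combination -b * hs + hp
      | linear_combination b * hs - hp - hs
  · show (b : K) * 0 + (0 : K) * 1 + (-1 : K) * 0 = 0
    first
      | ring1
      | linear_combination hs
      | linear_combination -hs
      | linear_combination hp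
      | linear_combination -hp
      | linear_combination hs - hp
      | linear_combination hp - hs
      | linear_combination -b * hs + hp - hs
      | linear_combination -b * hs + hp
      | linear_combination b * hs - hp - hs
  · show (b : K) * 1 + (0 : K) * 1 + (-1 : K) * b = 0
    first
      | ring1
      | linear_combination hs
      | linear_combination -hs
      | linear_combination hp
      | linear_combination -hp
      | linear_combination hs - hp
      | linear_combination hp - hs
      | linear_combination -b * hs + hp - hs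
      | linear_combination -b * hs + hp
      | linear_combination b * hs - hp - hs
  · show (b : K) * 1 + (0 : K) * 0 + (-1 : K) * b = 0
    first
      | ring1
      | linear_combination hs
      | linear_combination -hs
      | linear_combination hp
      | linear_combination -hp
      | linear_combination hs - hp
      | linear_combination hp - hs
      | linear_combination -b * hs + hp - hs
      | linear_combination -b * hs + hp
      | linear_combination b * hs - hp - hs
  · show (0 : K) * 1 + (1 : K) * 0 + (-a : K) * 0 = 0
    first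
      | ring1
      | linear_combination hs
      | linear_combination -hs
      | linear_combination hp
      | linear_combination -hp
      | linear_combination hs - hp
      | linear_combination hp - hs
      | linear_combination -b * hs + hp - hs
      | linear_combination -b * hs + hp
      | linear_combination b * hs - hp - hs
  · show (0 : K) * 1 + (1 : K) * 1 + (-a : K) * b = 0
    first
      | ring1
      | linear_combination hs
      | linear_combination -hs
      | linear_combination hp
      | linear_combination -hp
      | linear_combination hs - hp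
      | linear_combination hp - hs
      | linear_combination -b * hs + hp - hs
      | linear_combination -b * hs + hp
      | linear_combination b * hs - hp - hs
  · show (0 : K) * 1 + (1 : K) * a + (-a : K) * 1 = 0
    first
      | ring1
      | linear_combination hs
      | linear_combination -hs
      | linear_combination hp
      | linear_combination -hp
      | linear_combination hs - hp
      | linear_combination hp - hs
      | linear_combination -b * hs + hp - hs
      | linear_combination -b * hs + hp
      | linear_combination b * hs - hp - hs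
  · show (1 : K) * 0 + (0 : K) * 1 + (0 : K) * 0 = 0
    first
      | ring1
      | linear_combination hs
      | linear_combination -hs
      | linear_combination hp
      | linear_combination -hp
      | linear_combination hs - hp
      | linear_combination hp - hs
      | linear_combination -b * hs + hp - hs
      | linear_combination -b * hs + hp
      | linear_combination b * hs - hp - hs
  · show (1 : K) * 0 + (0 : K) * 0 + (0 : K) * 1 = 0
    first
      | ring1
      | linear_combination hs
      | linear_combination -hs
      | linear_combination hp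
      | linear_combination -hp
      | linear_combination hs - hp
      | linear_combination hp - hs
      | linear_combination -b * hs + hp - hs
      | linear_combination -b * hs + hp
      | linear_combination b * hs - hp - hs
  · show (1 : K) * 0 + (0 : K) * 1 + (0 : K) * 1 = 0
    first
      | ring1
      | linear_combination hs
      | linear_combination -hs
      | linear_combination hp
      | linear_combination -hp
      | linear_combination hs - hp
      | linear_combination hp - hs
      | linear_combination -b * hs + hp - hs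
      | linear_combination -b * hs + hp
      | linear_combination b * hs - hp - hs
  · show (-a : K) * 1 + (1 : K) * a + (-b : K) * 0 = 0
    first
      | ring1
      | linear_combination hs
      | linear_combination -hs
      | linear_combination hp
      | linear_combination -hp
      | linear_combination hs - hp
      | linear_combination hp - hs
      | linear_combination -b * hs + hp - hs
      | linear_combination -b * hs + hp
      | linear_combination b * hs - hp - hs
  · show (-a : K) * 1 + (1 : K) * 1 + (-b : K) * 1 = 0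
    first
      | ring1
      | linear_combination hs
      | linear_combination -hs
      | linear_combination hp
      | linear_combination -hp
      | linear_combination hs - hp
      | linear_combination hp - hs
      | linear_combination -b * hs + hp - hs
      | linear_combination -b * hs + hp
      | linear_combination b * hs - hp - hs
  · show (-a : K) * 1 + (1 : K) * 0 + (-b : K) * b = 0
    first
      | ring1
      | linear_combination hs
      | linear_combination -hs
      | linear_combination hp
      | linear_combination -hp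
      | linear_combination hs - hp
      | linear_combination hp - hs
      | linear_combination -b * hs + hp - hs
      | linear_combination -b * hs + hp
      | linear_combination b * hs - hp - hs
  · show (0 : K) * 1 + (1 : K) * 0 + (0 : K) * 0 = 0
    first
      | ring1
      | linear_combination hs
      | linear_combination -hs
      | linear_combination hp
      | linear_combination -hp
      | linear_combination hs - hp
      | linear_combination hp - hs
      | linear_combination -b * hs + hp - hs
      | linear_combination -b * hs + hp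
      | linear_combination b * hs - hp - hs
  · show (0 : K) * 0 + (1 : K) * 0 + (0 : K) * 1 = 0
    first
      | ring1
      | linear_combination hs
      | linear_combination -hs
      | linear_combination hp
      | linear_combination -hp
      | linear_combination hs - hp
      | linear_combination hp - hs
      | linear_combination -b * hs + hp - hs
      | linear_combination -b * hs + hp
      | linear_combination b * hs - hp - hs
  · show (0 : K) * 1 + (1 : K) * 0 + (0 : K) * b = 0
    first
      | ring1
      | linear_combination hs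
      | linear_combination -hs
      | linear_combination hp
      | linear_combination -hp
      | linear_combination hs - hp
      | linear_combination hp - hs
      | linear_combination -b * hs + hp - hs
      | linear_combination -b * hs + hp
      | linear_combination b * hs - hp - hs
  · show (1 : K) * 0 + (0 : K) * 1 + (-1 : K) * 0 = 0
    first
      | ring1
      | linear_combination hs
      | linear_combination -hs
      | linear_combination hp
      | linear_combination -hp
      | linear_combination hs - hp
      | linear_combination hp - hs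
      | linear_combination -b * hs + hp - hs
      | linear_combination -b * hs + hp
      | linear_combination b * hs - hp - hs
  · show (1 : K) * 1 + (0 : K) * 1 + (-1 : K) * 1 = 0
    first
      | ring1
      | linear_combination hs
      | linear_combination -hs
      | linear_combination hp
      | linear_combination -hp
      | linear_combination hs - hp
      | linear_combination hp - hs
      | linear_combination -b * hs + hp - hs
      | linear_combination -b * hs + hp
      | linear_combination b * hs - hp - hs
  · show (1 : K) * 1 + (0 : K) * a + (-1 : K) * 1 = 0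
    first
      | ring1
      | linear_combination hs
      | linear_combination -hs
      | linear_combination hp
      | linear_combination -hp
      | linear_combination hs - hp
      | linear_combination hp - hs
      | linear_combination -b * hs + hp - hs
      | linear_combination -b * hs + hp
      | linear_combination b * hs - hp - hs
  · show (-a : K) * 1 + (1 : K) * a + (-1 : K) * 0 = 0
    first
      | ring1
      | linear_combination hs
      | linear_combination -hs
      | linear_combination hp
      | linear_combination -hp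
      | linear_combination hs - hp
      | linear_combination hp - hs
      | linear_combination -b * hs + hp - hs
      | linear_combination -b * hs + hp
      | linear_combination b * hs - hp - hs
  · show (-a : K) * 1 + (1 : K) * 1 + (-1 : K) * b = 0
    first
      | ring1
      | linear_combination hs
      | linear_combination -hs
      | linear_combination hp
      | linear_combination -hp
      | linear_combination hs - hp
      | linear_combination hp - hs
      | linear_combination -b * hs + hp - hs
      | linear_combination -b * hs + hp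
      | linear_combination b * hs - hp - hs
  · show (-a : K) * 0 + (1 : K) * 1 + (-1 : K) * 1 = 0
    first
      | ring1
      | linear_combination hs
      | linear_combination -hs
      | linear_combination hp
      | linear_combination -hp
      | linear_combination hs - hp
      | linear_combination hp - hs
      | linear_combination -b * hs + hp - hs
      | linear_combination -b * hs + hp
      | linear_combination b * hs - hp - hs

end Existence

/-! ### Primes modulo three -/

lemma no_root {p : ℕ} [Fact p.Prime] (h : p % 3 = 2) (a : ZMod p) : a ^ 2 - a + 1 ≠ 0 := by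
  intro ha
  have h3 : (-a) ^ 3 = 1 := by linear_combination (-(a + 1)) * ha
  have h1 : -a ≠ 1 := by
    intro h1
    have ha1 : a = -1 := by linear_combination -h1
    rw [ha1] at ha
    have h4 : ((3 : ℕ) : ZMod p) = 0 := by
      push_cast
      linear_combination ha
    rw [ZMod.natCast_eq_zero_iff] at h4
    have h5 := (Nat.prime_dvd_prime_iff_eq (Fact.out : p.Prime) Nat.prime_three).1 h4
    omega
  haveI : Fact (Nat.Prime 3) := ⟨Nat.prime_three⟩
  have ho : orderOf (-a) = 3 := orderOf_eq_prime h3 h1
  have h0 : -a ≠ 0 := by
    intro h0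
    rw [h0] at h3
    norm_num at h3
  have hd := ZMod.orderOf_dvd_card_sub_one h0
  rw [ho] at hd
  have hp1 : 1 < p := (Fact.out : p.Prime).one_lt
  omega

lemma exists_root {p : ℕ} [Fact p.Prime] (h : p % 3 = 1) : ∃ a : ZMod p, a ^ 2 - a + 1 = 0 := by
  haveI : Fact (Nat.Prime 3) := ⟨Nat.prime_three⟩
  have hp1 : 1 < p := (Fact.out : p.Prime).one_lt
  have hcard : 3 ∣ Nat.card (ZMod p)ˣ := by
    rw [Nat.card_eq_fintype_card, ZMod.card_units]
    omega
  obtain ⟨g, hg⟩ := exists_prime_orderOf_dvd_card' 3 hcard
  have hg3 : ((g : ZMod p)) ^ 3 = 1 := by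
    rw [← Units.val_pow_eq_pow_val, ← hg, pow_orderOf_eq_one, Units.val_one]
  have hg1 : (g : ZMod p) ≠ 1 := by
    intro h1
    have : g = 1 := Units.ext h1
    rw [this, orderOf_one] at hg
    omega
  refine ⟨-(g : ZMod p), ?_⟩
  have : ((g : ZMod p) - 1) * ((g : ZMod p) ^ 2 + (g : ZMod p) + 1) = 0 := by
    linear_combination hg3
  rcases mul_eq_zero.1 this with h2 | h2
  · exact absurd (sub_eq_zero.1 h2) hg1
  · linear_combination h2

lemma inj_eq_zero {p : ℕ} (hp : p.Prime) (h : p % 3 = 2) : injPlane affinePlane3 p = 0 := by
  haveI : Fact p.Prime := ⟨hp⟩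
  unfold injPlane
  rw [dif_pos hp]
  unfold inj
  rw [Nat.card_eq_zero]
  left
  refine ⟨?_⟩
  rintro ⟨⟨f1, f2⟩, h1, h2, h3⟩
  obtain ⟨a, ha⟩ := root_of_embedding f1 f2 h1 h2 h3
  exact no_root h a ha

lemma inj_pos {p : ℕ} (hp : p.Prime) (h : p % 3 = 1) : 1 ≤ injPlane affinePlane3 p := by
  haveI : Fact p.Prime := ⟨hp⟩
  unfold injPlane
  rw [dif_pos hp]
  obtain ⟨a, ha⟩ := exists_root (p := p) h
  have hs : a + (1 - a) = 1 := by ring
  have hpr : a * (1 - a) = 1 := by linear_combination -ha
  have ha0 : a ≠ 0 := by rintro rfl; norm_num at ha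
  have ha1 : a ≠ 1 := by rintro rfl; norm_num at ha
  have hb0 : (1 - a) ≠ 0 := fun h => ha1 (by linear_combination -h)
  have hb1 : (1 - a) ≠ 1 := fun h => ha0 (by linear_combination -h)
  have hab : (1 - a) ≠ -a := fun h => one_ne_zero (α := ZMod p) (by linear_combination h)
  haveI i1 := affinePlane3.fin₁
  haveI i2 := affinePlane3.fin₂
  haveI i3 := (planeGraph (ZMod p)).fin₁
  haveI i4 := (planeGraph (ZMod p)).fin₂
  refine Nat.succ_le_of_lt (Nat.card_pos_iff.2 ⟨⟨⟨(fun P =>
      (⟨Submodule.span (ZMod p) {pv a (1 - a) P}, finrank_span_singleton (pv_ne_zero a (1 - a) P)⟩ :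
        {P : Submodule (ZMod p) (Fin 3 → ZMod p) // Module.finrank (ZMod p) P = 1}),
      fun ℓ => (⟨LinearMap.ker (functional (lv a (1 - a) ℓ)), finrank_ker (lv_ne_zero a (1 - a) ℓ)⟩ :
        {L : Submodule (ZMod p) (Fin 3 → ZMod p) // Module.finrank (ZMod p) L = 2})),
      ?_, ?_, ?_⟩⟩, ?_⟩)
  · intro P Q hPQ
    exact pv_inj ha0 ha1 hb0 hb1 (congrArg Subtype.val hPQ)
  · intro P Q hPQ
    exact lv_inj ha0 ha1 hb0 hb1 hab (congrArg Subtype.val hPQ)
  · intro P ℓ hPℓ
    exact incidence hs hpr hPℓ
  · exact Subtype.finite

/-! ### The theorem -/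

/-- There is a finite bipartite graph `H` with at least one edge (the incidence graph of the affine
plane of order three) such that `inj(H, G_p) = 0` for every prime `p ≡ 2 mod 3` and
`inj(H, G_p) ≥ 1` for every prime `p ≡ 1 mod 3`. Hence, for the sequence `log_p inj(H, G_p)` indexed
by the primes in increasing order, `liminf = -∞` and `limsup ≥ 0`; in particular it does not
converge in `[-∞, ∞)`. -/
theorem result : ∃ H : BipGraph, (∃ x y, H.E x y) ∧
    (∀ p : ℕ, p.Prime → p % 3 = 2 → injPlane H p = 0) ∧
    (∀ p : ℕ, p.Prime → p % 3 = 1 → 1 ≤ injPlane H p) ∧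
    liminf (fun n : ℕ => elog (Nat.nth Nat.Prime n) (injPlane H (Nat.nth Nat.Prime n))) atTop = ⊥ ∧
    0 ≤ limsup (fun n : ℕ => elog (Nat.nth Nat.Prime n) (injPlane H (Nat.nth Nat.Prime n))) atTop ∧
    ¬ ∃ L : EReal, L ≠ ⊤ ∧
      Tendsto (fun n : ℕ => elog (Nat.nth Nat.Prime n) (injPlane H (Nat.nth Nat.Prime n)))
        atTop (𝓝 L) := by
  have hfreq : ∀ r : ℕ, r.Coprime 3 → ∃ᶠ n : ℕ in atTop, Nat.nth Nat.Prime n % 3 = r % 3 := by
    intro r hr
    rw [Filter.frequently_atTop]
    intro N
    obtain ⟨p, hp1, hp2, hp3⟩ := Nat.forall_exists_prime_gt_and_modEq (Nat.nth Nat.Prime N)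
      (q := 3) (a := r) (by norm_num) hr
    refine ⟨Nat.count Nat.Prime p, ?_, ?_⟩
    · rw [← Nat.nth_le_nth Nat.infinite_setOf_prime, Nat.nth_count hp2]
      exact hp1.le
    · rw [Nat.nth_count hp2]
      exact hp3
  have hprime : ∀ n, (Nat.nth Nat.Prime n).Prime := fun n =>
    Nat.nth_mem_of_infinite Nat.infinite_setOf_prime n
  have hlow : ∃ᶠ n : ℕ in atTop,
      elog (Nat.nth Nat.Prime n) (injPlane affinePlane3 (Nat.nth Nat.Prime n)) ≤ ⊥ := by
    refine (hfreq 2 (by norm_num)).mono fun n hn => ?_
    rw [inj_eq_zero (hprime n) (by simpa using hn)]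
    simp [elog]
  have hhigh : ∃ᶠ n : ℕ in atTop,
      0 ≤ elog (Nat.nth Nat.Prime n) (injPlane affinePlane3 (Nat.nth Nat.Prime n)) := by
    refine (hfreq 1 (by norm_num)).mono fun n hn => ?_
    have h1 := inj_pos (hprime n) (by simpa using hn)
    unfold elog
    rw [if_neg (by omega)]
    rw [← EReal.coe_zero, EReal.coe_le_coe_iff]
    apply Real.logb_nonneg
    · exact_mod_cast (hprime n).one_lt
    · exact_mod_cast h1
  have e1 : liminf (fun n : ℕ => elog (Nat.nth Nat.Prime n)
      (injPlane affinePlane3 (Nat.nth Nat.Prime n))) atTop = ⊥ :=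
    le_bot_iff.1 (Filter.liminf_le_of_frequently_le' hlow)
  have e2 : 0 ≤ limsup (fun n : ℕ => elog (Nat.nth Nat.Prime n)
      (injPlane affinePlane3 (Nat.nth Nat.Prime n))) atTop :=
    Filter.le_limsup_of_frequently_le' hhigh
  refine ⟨affinePlane3, ⟨(0, 0), Sum.inr 0, rfl⟩, fun p hp h => inj_eq_zero hp h,
    fun p hp h => inj_pos hp h, e1, e2, ?_⟩
  rintro ⟨L, -, hL⟩
  rw [hL.liminf_eq] at e1
  rw [hL.limsup_eq, e1] at e2
  simp at e2

end Pool.Agent.Results.MP_5e7574_co.PrimePlanesDiverge
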